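import Pool.Agent.helper23.CU.Spec

/-!
# cu:FN: no cutoff
-/

open Finset Filter Topology

namespace CU

theorem FN (hDM : DM_stmt) : FN_stmt := by
  intro d β _ hn hC
  obtain ⟨τ, hτ, hcut⟩ := hC
  obtain ⟨h1, h2⟩ := hcut (1 / 10) (by norm_num) (by norm_num)
  have e1 := h1.eventually (lt_mem_nhds (show (95 / 100 : ℝ) < 1 by norm_num))
  have e2 := h2.eventually (gt_mem_nhds (show (0 : ℝ) < 1 / 5 by norm_num))
  have e3 := hτ.eventually_ge_atTop 0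
  obtain ⟨n, ⟨t₁, t₂, -, h12, hd1, hd2⟩, g1, g2, g3⟩ := (hn.and (e1.and (e2.and e3))).exists
  have k1 : ⌊(1 - 1 / 10) * τ n⌋₊ < t₁ := by
    by_contra hcon
    have := hDM d (n + 3) (by omega) β t₁ ⌊(1 - 1 / 10) * τ n⌋₊ (not_lt.mp hcon)
    linarith
  have k2 : t₂ < ⌊(1 + 1 / 10) * τ n⌋₊ := by
    by_contra hcon
    have := hDM d (n + 3) (by omega) β ⌊(1 + 1 / 10) * τ n⌋₊ t₂ (not_lt.mp hcon)
    linarith
  have k3 : (1 - 1 / 10) * τ n < t₁ := by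
    have a1 := Nat.lt_floor_add_one ((1 - 1 / 10) * τ n)
    have a2 : ((⌊(1 - 1 / 10) * τ n⌋₊ : ℝ)) + 1 ≤ t₁ := by exact_mod_cast k1
    linarith
  have k4 : (t₂ : ℝ) < (1 + 1 / 10) * τ n := by
    have a1 := Nat.floor_le (show 0 ≤ (1 + 1 / 10) * τ n by linarith)
    have a2 : (t₂ : ℝ) < ((⌊(1 + 1 / 10) * τ n⌋₊ : ℝ)) := by exact_mod_cast k2
    linarith
  have k5 : 4 * (t₁ : ℝ) ≤ 3 * t₂ := by exact_mod_cast h12
  linarith

end CU
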