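import Pool.Agent.helper23.CU.Spec

/-!
# cu:FP: the global flip
-/

open Finset Filter Topology

namespace CU

theorem FP_brk {d n : ℕ} [NeZero n] (σ : Conf d n) : brk (flipc σ) = brk σ := by
  unfold brk flipc
  ext e
  simp

theorem FP_Gr {d n : ℕ} [NeZero n] (σ : Conf d n) : Gr (flipc σ) = Gr σ := by
  ext e e'
  change (sqAdj e e' ∧ e ∈ brk (flipc σ) ∧ e' ∈ brk (flipc σ)) ↔
    (sqAdj e e' ∧ e ∈ brk σ ∧ e' ∈ brk σ)
  rw [FP_brk]

theorem FP_clus {d n : ℕ} [NeZero n] (σ : Conf d n) : clusters (flipc σ) = clusters σ := by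
  unfold clusters
  rw [FP_brk]
  have : clus (flipc σ) = clus σ := by
    funext e
    unfold clus
    rw [FP_brk, FP_Gr]
  rw [this]

theorem FP : FP_stmt := by
  intro d n r _ σ
  refine ⟨FP_brk σ, ?_, ?_⟩
  · unfold Good
    rw [FP_brk, FP_Gr]
  · unfold eps
    rw [FP_clus]
    have : bv (flipc σ 0) = bv (σ 0) + 1 := by
      unfold flipc bv
      cases σ 0
      · simp
      · simp only [Bool.not_true, Bool.false_eq_true, if_false, if_true]
        decide
    rw [this]
    ring

end CU
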