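import Pool.Agent.helper23.CU.SpecE

/-!
# cu:QA: a path gives a subgraph with boundary `{u, w}`
-/

open Finset Filter Topology

namespace CU

theorem QA_two (a : ZMod 2) : a + a = 0 := CharTwo.add_self_eq_zero a

theorem QA_symm {n : ℕ} (η ζ : Finset (Edge 2 n)) : bd (symmDiff η ζ) = bd η + bd ζ := by
  funext v
  change _ = bd η v + bd ζ v
  unfold bd
  set f : Edge 2 n → ZMod 2 := fun e => (if e.1 = v then (1 : ZMod 2) else 0) +
    (if dn e = v then 1 else 0) with hf
  have h1 : ∑ e ∈ symmDiff η ζ, f e = ∑ e ∈ η \ ζ, f e + ∑ e ∈ ζ \ η, f e := by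
    have : symmDiff η ζ = (η \ ζ) ∪ (ζ \ η) := rfl
    rw [this, Finset.sum_union disjoint_sdiff_sdiff]
  have h2 : ∑ e ∈ η, f e = ∑ e ∈ η \ ζ, f e + ∑ e ∈ η ∩ ζ, f e := by
    rw [add_comm, Finset.sum_inter_add_sum_sdiff]
  have h3 : ∑ e ∈ ζ, f e = ∑ e ∈ ζ \ η, f e + ∑ e ∈ η ∩ ζ, f e := by
    rw [add_comm, Finset.inter_comm, Finset.sum_inter_add_sum_sdiff]
  rw [h1, h2, h3]
  have h4 := QA_two (∑ e ∈ η ∩ ζ, f e)
  linear_combination -h4

theorem QA : QA_stmt := by
  intro n _
  refine ⟨QA_symm, ?_⟩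
  intro ω u w h
  obtain ⟨p⟩ := h
  induction p with
  | nil =>
    rename_i u
    refine ⟨∅, Finset.empty_subset _, ?_⟩
    funext v
    change (∑ e ∈ (∅ : Finset (Edge 2 n)), _) = (if v = u then (1 : ZMod 2) else 0) +
      (if v = u then 1 else 0)
    rw [QA_two, Finset.sum_empty]
  | cons h p ih =>
    rename_i u v' w
    obtain ⟨_, e, he, hh⟩ := h
    obtain ⟨γ, hγ, hb⟩ := ih
    refine ⟨symmDiff {e} γ, ?_, ?_⟩
    · intro x hx
      rw [Finset.mem_symmDiff] at hx
      rcases hx with ⟨h1, _⟩ | ⟨h1, _⟩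
      · rw [Finset.mem_singleton.mp h1]; exact he
      · exact hγ h1
    · rw [QA_symm, hb]
      funext v
      change bd {e} v + src v' w v = src u w v
      unfold bd src
      rw [Finset.sum_singleton]
      have h2 := QA_two (if v = v' then (1 : ZMod 2) else 0)
      have e1 : ∀ a : Site 2 n, (if a = v then (1 : ZMod 2) else 0) = if v = a then 1 else 0 := by
        intro a
        by_cases h : a = v
        · rw [if_pos h, if_pos h.symm]
        · rw [if_neg h, if_neg (Ne.symm h)]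
      rcases hh with ⟨h3, h4⟩ | ⟨h3, h4⟩
      · rw [h3, h4, e1, e1]
        linear_combination h2
      · rw [h3, h4, e1, e1]
        linear_combination h2

end CU
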