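import Pool.Agent.helper23.CU.SpecE

/-!
# cu:RF: a bad configuration has two far dual vertices in one contour cluster
-/

open Finset Filter Topology

namespace CU

theorem RF_end {n : ℕ} (x : Site 2 n) (i j : Fin 2) (hij : i ≠ j) (e : Edge 2 n)
    (he : e ∈ sq x i j) : e.1 = x ∨ dn e = x := by
  have h1 : (1 : Fin 2) - j = i := by
    fin_cases i <;> fin_cases j <;> simp_all
  have h2 : (1 : Fin 2) - i = j := by
    fin_cases i <;> fin_cases j <;> simp_all
  unfold sq at he
  simp only [Finset.mem_insert, Finset.mem_singleton] at he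
  rcases he with rfl | rfl | rfl | rfl
  · left; rfl
  · left; rfl
  · right
    change x + ev i - ev (1 - j) = x
    rw [h1, add_sub_cancel_right]
  · right
    change x + ev j - ev (1 - i) = x
    rw [h2, add_sub_cancel_right]

theorem RF_reach {n : ℕ} (η : Finset (Edge 2 n)) (e : Edge 2 n) (he : e ∈ η) :
    (dG η).Reachable e.1 (dn e) := by
  by_cases h : e.1 = dn e
  · rw [← h]
  · exact SimpleGraph.Adj.reachable ⟨h, e, he, Or.inl ⟨rfl, rfl⟩⟩

theorem RF : RF_stmt := by
  intro n r _ _ σ hG
  unfold Good at hG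
  push Not at hG
  obtain ⟨e, he, e', hreach, hN⟩ := hG
  refine ⟨e.1, e'.1, hN, ?_⟩
  clear hN
  obtain ⟨p⟩ := hreach
  induction p with
  | nil => exact SimpleGraph.Reachable.refl _
  | cons h p ih =>
    obtain ⟨⟨_, x, i, j, hij, h1, h2⟩, hb, hb'⟩ := h
    refine SimpleGraph.Reachable.trans ?_ (ih hb')
    have key : ∀ f : Edge 2 n, f ∈ sq x i j → f ∈ brk σ → (dG (brk σ)).Reachable f.1 x := by
      intro f hf hfb
      rcases RF_end x i j hij f hf with h | h
      · rw [h]
      · have := RF_reach (brk σ) f hfb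
        rw [h] at this
        exact this
    exact (key _ h1 hb).trans (key _ h2 hb').symm

end CU
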